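import Mathlib

/-!
Local solubility of `c u² = c² v⁴ + 1` forces `c` to be a square.
-/

set_option autoImplicit false

namespace Pool.Agent.W97.LF

theorem val_even (p : ℕ) [Fact p.Prime] {c : ℚ_[p]} (hc : c ≠ 0) {u v : ℚ_[p]}
    (h : c * u ^ 2 = c ^ 2 * v ^ 4 + 1) : Even c.valuation := by
  by_contra hodd
  rw [Int.not_even_iff_odd] at hodd
  obtain ⟨a, ha⟩ := hodd
  have hp1 : (1 : ℝ) < p := by exact_mod_cast (Fact.out : p.Prime).one_lt
  have hp0 : (p : ℝ) ≠ 0 := by positivity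
  have inj : ∀ m n : ℤ, (p : ℝ) ^ m = (p : ℝ) ^ n → m = n := fun m n h =>
    zpow_right_injective₀ (by linarith) hp1.ne' h
  have hcn : ‖c‖ = (p : ℝ) ^ (-(2 * a + 1)) := by
    rw [Padic.norm_eq_zpow_neg_valuation hc, ha]
  -- norm of the left-hand side is an odd power of `p` or zero
  have hl : ‖c * u ^ 2‖ = 0 ∨ ∃ m : ℤ, ‖c * u ^ 2‖ = (p : ℝ) ^ (2 * m + 1) := by
    by_cases hu : u = 0
    · left; rw [hu]; simp
    · right
      refine ⟨-a - 1 + -u.valuation, ?_⟩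
      rw [norm_mul, norm_pow, hcn, Padic.norm_eq_zpow_neg_valuation hu, ← zpow_natCast, ← zpow_mul,
        ← zpow_add₀ hp0]
      congr 1
      push_cast
      ring
  have hr : ∃ m : ℤ, ‖c ^ 2 * v ^ 4 + 1‖ = (p : ℝ) ^ (2 * m) := by
    by_cases hv : v = 0
    · refine ⟨0, ?_⟩
      rw [hv]
      simp
    · have h1 : ‖c ^ 2 * v ^ 4‖ = (p : ℝ) ^ (2 * (-(2 * a + 1) + 2 * -v.valuation)) := by
        rw [norm_mul, norm_pow, norm_pow, hcn, Padic.norm_eq_zpow_neg_valuation hv,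
          ← zpow_natCast, ← zpow_mul, ← zpow_natCast, ← zpow_mul, ← zpow_add₀ hp0]
        congr 1
        push_cast
        ring
      have h2 : ‖c ^ 2 * v ^ 4‖ ≠ ‖(1 : ℚ_[p])‖ := by
        rw [h1, norm_one]
        intro h3
        rw [← zpow_zero (p : ℝ)] at h3
        have := inj _ _ h3
        omega
      rw [IsUltrametricDist.norm_add_eq_max_of_norm_ne_norm h2]
      rcases le_total ‖c ^ 2 * v ^ 4‖ ‖(1 : ℚ_[p])‖ with h4 | h4
      · refine ⟨0, ?_⟩
        rw [max_eq_right h4]; simp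
      · exact ⟨_, by rw [max_eq_left h4]; exact h1⟩
  obtain ⟨m, hm⟩ := hr
  rw [← h] at hm
  rcases hl with hl | ⟨n, hl⟩
  · rw [hl] at hm
    exact absurd hm.symm (zpow_ne_zero _ hp0)
  · rw [hl] at hm
    have := inj _ _ hm
    omega

theorem nat_square {n : ℕ} (h : ∀ p : ℕ, p.Prime → Even (n.factorization p)) : IsSquare n := by
  by_cases hn : n = 0
  · rw [hn]; exact ⟨0, rfl⟩
  refine ⟨n.factorization.prod fun p k => p ^ (k / 2), ?_⟩
  conv_lhs => rw [← Nat.prod_factorization_pow_eq_self hn]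
  rw [← Finsupp.prod_mul]
  apply Finsupp.prod_congr
  intro p hp
  have hpp : p.Prime := Nat.prime_of_mem_primeFactors (by simpa using hp)
  obtain ⟨k, hk⟩ := h p hpp
  rw [← pow_add, hk]
  congr 1
  omega

theorem rat_square {c : ℚ} (hc : 0 < c) (h : ∀ p : ℕ, p.Prime → Even (padicValRat p c)) :
    IsSquare c := by
  have hnum : 0 < c.num := Rat.num_pos.2 hc
  have h1 : IsSquare (c.num.natAbs * c.den) := by
    apply nat_square
    intro p hp
    haveI := Fact.mk hp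
    have h2 := h p hp
    unfold padicValRat padicValInt at h2
    rw [Nat.factorization_mul (by simpa using hnum.ne') c.den_nz]
    simp only [Finsupp.coe_add, Pi.add_apply]
    rw [Nat.factorization_def _ hp, Nat.factorization_def _ hp]
    have h3 : Even ((padicValNat p c.num.natAbs : ℤ) - (padicValNat p c.den : ℤ)) := h2
    rw [Int.even_sub] at h3
    rw [Nat.even_add]
    simpa [Int.even_coe_nat] using h3
  obtain ⟨w, hw⟩ := h1
  have hd : (c.den : ℚ) ≠ 0 := by exact_mod_cast c.den_nz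
  refine ⟨w / c.den, ?_⟩
  have h4 : (c.num.natAbs : ℚ) = c.num := by
    rw [← Int.cast_natCast, Int.natAbs_of_nonneg hnum.le]
  have h5 : (c.num : ℚ) * c.den = w * w := by
    rw [← h4]
    exact_mod_cast hw
  have h6 : c * c.den = c.num := Rat.mul_den_eq_num c
  field_simp
  rw [← h6] at h5
  linear_combination h5

theorem fermat {F : ℚ} (h : IsSquare (F ^ 4 + 1)) : F = 0 := by
  by_contra hF
  obtain ⟨w, hw⟩ := h
  have hd : (F.den : ℚ) ≠ 0 := by exact_mod_cast F.den_nz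
  have hn : F.num ≠ 0 := Rat.num_ne_zero.2 hF
  have h6 : F * F.den = F.num := Rat.mul_den_eq_num F
  have h1 : ((F.num ^ 4 + (F.den : ℤ) ^ 4 : ℤ) : ℚ) = (w * F.den ^ 2) * (w * F.den ^ 2) := by
    push_cast
    rw [← h6]
    linear_combination (F.den : ℚ) ^ 4 * hw
  have h2 : IsSquare ((F.num ^ 4 + (F.den : ℤ) ^ 4 : ℤ) : ℚ) := ⟨_, h1⟩
  rw [Rat.isSquare_intCast_iff] at h2
  obtain ⟨z, hz⟩ := h2
  have h3 : (F.den : ℤ) ≠ 0 := by exact_mod_cast F.den_nz
  exact not_fermat_42 hn h3 (c := z) (by rw [hz]; ring)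

/-- if `c u² = c² v⁴ + 1` is soluble over all `ℚ_p`, where `c = F⁴ + 1`, then `F = 0` -/
theorem local_global {F : ℚ}
    (h : ∀ (p : ℕ) [Fact p.Prime], ∃ u v : ℚ_[p], (((F ^ 4 + 1 : ℚ) : ℚ) : ℚ_[p]) * u ^ 2 =
      ((F ^ 4 + 1 : ℚ) : ℚ_[p]) ^ 2 * v ^ 4 + 1) : F = 0 := by
  apply fermat
  have hc : 0 < F ^ 4 + 1 := by positivity
  apply rat_square hc
  intro p hp
  haveI := Fact.mk hp
  obtain ⟨u, v, huv⟩ := h p
  have h1 := val_even p (c := ((F ^ 4 + 1 : ℚ) : ℚ_[p])) (by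
    have : (F ^ 4 + 1 : ℚ) ≠ 0 := hc.ne'
    exact_mod_cast this) huv
  rw [Padic.valuation_ratCast] at h1
  exact h1

end Pool.Agent.W97.LF
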