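import Mathlib

/-!
Fibrations over the complement of the origin in a Weierstrass cubic over `ℚ`, given by
algebras over its coordinate ring; the fibres with points everywhere locally.
-/

set_option autoImplicit false

namespace Pool.Agent.W97.LF

open WeierstrassCurve.Affine

/-- Let `W` be a Weierstrass cubic over `ℚ`, with affine coordinate ring
`ℚ[W] = ℚ[x, y] / (equation)`, and let `A` be a `ℚ[W]`-algebra, `X = Spec A`. Then
`X → Spec ℚ[W] = W ∖ {O}` is a smooth morphism of finite presentation, `X` is integral, the
morphism is dominant, and its generic fibre is geometrically integral. -/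
def IsFibration (W : WeierstrassCurve ℚ) (A : Type) [CommRing A]
    [Algebra W.toAffine.CoordinateRing A] : Prop :=
  IsDomain A ∧ Algebra.Smooth W.toAffine.CoordinateRing A ∧
    Function.Injective (algebraMap W.toAffine.CoordinateRing A) ∧
    ∀ (L : Type) [Field L] [Algebra W.toAffine.CoordinateRing L],
      Function.Injective (algebraMap W.toAffine.CoordinateRing L) →
        IsDomain (TensorProduct W.toAffine.CoordinateRing L A)

/-- `X = Spec A` has a `k`-point lying over the rational point `(x, y)` of `W`, i.e. the fibre of
`X` over `(x, y)` has a `k`-point -/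
def FibrePoint (W : WeierstrassCurve ℚ) (A : Type) [CommRing A]
    [Algebra W.toAffine.CoordinateRing A] (x y : ℚ) (k : Type) [Field k] : Prop :=
  ∃ ψ : A →+* k,
    ψ (algebraMap W.toAffine.CoordinateRing A
      (CoordinateRing.mk W.toAffine (Polynomial.C Polynomial.X))) = (x : k) ∧
    ψ (algebraMap W.toAffine.CoordinateRing A
      (CoordinateRing.mk W.toAffine Polynomial.X)) = (y : k)

/-- The rational points of `W` over which the fibre of `X = Spec A` has points everywhere
locally. (The fibre over the origin `O` is empty.) -/
def Z (W : WeierstrassCurve ℚ) (A : Type) [CommRing A]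
    [Algebra W.toAffine.CoordinateRing A] : Set W.toAffine.Point :=
  {P | ∃ (x y : ℚ) (h : W.toAffine.Nonsingular x y), P = Point.some x y h ∧
    FibrePoint W A x y ℝ ∧ ∀ (p : ℕ) [Fact p.Prime], FibrePoint W A x y ℚ_[p]}

end Pool.Agent.W97.LF
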