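import Pool.Agent.W97.LF.XR

/-!
`L[U, V] / (c U² - c² V⁴ - 1)` is a domain over a field, and consequences.
-/

set_option autoImplicit false

open MvPolynomial TensorProduct

namespace Pool.Agent.W97.LF

theorem not_square {L : Type*} [Field L] [CharZero L] {c d : L} (hc : c ≠ 0) (hd : d ≠ 0)
    (w : Polynomial L) : w ^ 2 ≠ Polynomial.C c * Polynomial.X ^ 4 + Polynomial.C d := by
  intro h
  have h1 := congrArg Polynomial.derivative h
  rw [Polynomial.derivative_pow] at h1
  simp only [Polynomial.derivative_add, Polynomial.derivative_C, Polynomial.derivative_mul,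
    Polynomial.derivative_X_pow, zero_mul, zero_add, add_zero, Nat.cast_ofNat] at h1
  have hu : IsUnit w := by
    have h2 : w * (2 * w - Polynomial.X * Polynomial.derivative w) = Polynomial.C (2 * d) := by
      have h3 : w * (2 * w - Polynomial.X * Polynomial.derivative w) * 2 =
          Polynomial.C (2 * d) * 2 := by
        have h5 : (Polynomial.C (4 : L) : Polynomial L) = 4 := map_ofNat _ 4
        have h6 : (Polynomial.C (2 : L) : Polynomial L) = 2 := map_ofNat _ 2
        simp only [Polynomial.C_mul]
        simp only [h5, h6] at h1 ⊢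
        linear_combination 4 * h - Polynomial.X * h1
      exact mul_right_cancel₀ two_ne_zero h3
    have h7 : IsUnit (Polynomial.C (2 * d) : Polynomial L) := by
      rw [Polynomial.isUnit_C]
      exact (mul_ne_zero two_ne_zero hd).isUnit
    rw [← h2] at h7
    exact isUnit_of_mul_isUnit_left h7
  rw [Polynomial.isUnit_iff] at hu
  obtain ⟨r, _, rfl⟩ := hu
  have h8 := congrArg (fun p => Polynomial.coeff p 4) h
  simp only [Polynomial.coeff_add, Polynomial.coeff_C_mul, Polynomial.coeff_X_pow,
    Polynomial.coeff_C, ← Polynomial.C_pow] at h8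
  simp at h8
  exact hc h8.symm

theorem irr {L : Type} [Field L] [CharZero L] {c : L} (hc : c ≠ 0) : Irreducible (eqn c) := by
  rw [← MulEquiv.irreducible_iff (finSuccEquiv L 1)]
  set q : MvPolynomial (Fin 1) L := C c * X 0 ^ 4 + C c⁻¹ with hq
  have h1 : finSuccEquiv L 1 (eqn c) = Polynomial.C (C c) * (Polynomial.X ^ 2 - Polynomial.C q) := by
    unfold eqn
    have h2 : (X 1 : MvPolynomial (Fin 2) L) = X (Fin.succ 0) := rfl
    simp only [map_sub, map_mul, map_pow, map_one, C_pow, finSuccEquiv_X_zero]
    rw [h2, finSuccEquiv_X_succ, finSuccEquiv_apply]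
    simp only [eval₂Hom_C, RingHom.comp_apply]
    have h3 : (C c * C c⁻¹ : MvPolynomial (Fin 1) L) = 1 := by
      rw [← C_mul, mul_inv_cancel₀ hc, C_1]
    have h4 : (Polynomial.C (C c) : Polynomial (MvPolynomial (Fin 1) L)) *
      Polynomial.C (C c⁻¹) = 1 := by rw [← Polynomial.C_mul, h3, Polynomial.C_1]
    rw [hq]
    simp only [Polynomial.C_add, Polynomial.C_mul, Polynomial.C_pow]
    linear_combination h4
  rw [h1]
  have hu : IsUnit (Polynomial.C (C c) : Polynomial (MvPolynomial (Fin 1) L)) :=
    ((hc.isUnit).map (C : L →+* MvPolynomial (Fin 1) L)).map Polynomial.C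
  rw [irreducible_isUnit_mul hu]
  have hm : (Polynomial.X ^ 2 - Polynomial.C q).Monic := Polynomial.monic_X_pow_sub_C _ (by norm_num)
  have hdeg : (Polynomial.X ^ 2 - Polynomial.C q).natDegree = 2 := Polynomial.natDegree_X_pow_sub_C
  rw [hm.irreducible_iff_roots_eq_zero_of_degree_le_three (by rw [hdeg]) (by rw [hdeg]; norm_num)]
  rw [Multiset.eq_zero_iff_forall_notMem]
  intro w hw
  rw [Polynomial.mem_roots hm.ne_zero, Polynomial.IsRoot.def] at hw
  simp only [Polynomial.eval_sub, Polynomial.eval_pow, Polynomial.eval_X, Polynomial.eval_C] at hw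
  have h5 := congrArg (aeval (fun _ : Fin 1 => (Polynomial.X : Polynomial L))) hw
  simp only [map_sub, map_pow, hq, map_add, map_mul, aeval_C, aeval_X, map_zero] at h5
  exact not_square hc (inv_ne_zero hc) _ (sub_eq_zero.1 h5)

theorem dom {L : Type} [Field L] [CharZero L] {c : L} (hc : c ≠ 0) : IsDomain (XR c) := by
  have h : (Ideal.span {eqn c}).IsPrime := by
    rw [Ideal.span_singleton_prime (irr hc).ne_zero]
    exact UniqueFactorizationMonoid.irreducible_iff_prime.1 (irr hc)
  exact Ideal.Quotient.isDomain _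

/-- `L ⊗ XR f → XR f_L` is injective -/
theorem tens {S : Type} [CommRing S] (f : S) (L : Type) [Field L] [Algebra S L] :
    Nonempty (L ⊗[S] XR f ≃+* XR (algebraMap S L f)) := by
  set fL := algebraMap S L f with hfL
  letI : Algebra S (XR fL) := Algebra.compHom (XR fL) (algebraMap S L)
  haveI : IsScalarTower S L (XR fL) := IsScalarTower.of_algebraMap_eq (fun _ => rfl)
  have e1 : algebraMap S (XR fL) f * cU fL ^ 2 = algebraMap S (XR fL) f ^ 2 * cV fL ^ 4 + 1 := by
    have := rel fL
    rw [IsScalarTower.algebraMap_apply S L (XR fL)]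
    exact this
  let g : L ⊗[S] XR f →ₐ[L] XR fL := Algebra.TensorProduct.lift (Algebra.ofId L (XR fL))
    (lift f (cU fL) (cV fL) e1) (fun _ _ => Commute.all _ _)
  have e2 : algebraMap L (L ⊗[S] XR f) fL * (1 ⊗ₜ[S] cU f) ^ 2 =
      algebraMap L (L ⊗[S] XR f) fL ^ 2 * (1 ⊗ₜ[S] cV f) ^ 4 + 1 := by
    have h1 : algebraMap L (L ⊗[S] XR f) fL =
        (Algebra.TensorProduct.includeRight : XR f →ₐ[S] L ⊗[S] XR f)
          (algebraMap S (XR f) f) := by
      rw [hfL]
      rw [← IsScalarTower.algebraMap_apply S L (L ⊗[S] XR f) f]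
      exact (AlgHom.commutes (Algebra.TensorProduct.includeRight : XR f →ₐ[S] L ⊗[S] XR f) f).symm
    have h2 := congrArg (Algebra.TensorProduct.includeRight : XR f →ₐ[S] L ⊗[S] XR f) (rel f)
    simp only [map_mul, map_add, map_pow, map_one] at h2
    rw [h1]
    exact h2
  let g' : XR fL →ₐ[L] L ⊗[S] XR f := lift fL _ _ e2
  have h1 : g.comp g' = AlgHom.id L _ := by
    apply ext
    · rw [AlgHom.comp_apply, lift_U]
      change Algebra.TensorProduct.lift _ _ _ _ = _
      rw [Algebra.TensorProduct.lift_tmul, map_one, one_mul, lift_U]; rfl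
    · rw [AlgHom.comp_apply, lift_V]
      change Algebra.TensorProduct.lift _ _ _ _ = _
      rw [Algebra.TensorProduct.lift_tmul, map_one, one_mul, lift_V]; rfl
  have h2 : g'.comp g = AlgHom.id L _ := by
    apply Algebra.TensorProduct.ext
    · ext
    · apply ext
      · change g' (g (1 ⊗ₜ cU f)) = 1 ⊗ₜ cU f
        have : g (1 ⊗ₜ cU f) = cU fL := by
          change Algebra.TensorProduct.lift _ _ _ _ = _
          rw [Algebra.TensorProduct.lift_tmul, map_one, one_mul, lift_U]
        rw [this]
        exact lift_U _ _ _ _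
      · change g' (g (1 ⊗ₜ cV f)) = 1 ⊗ₜ cV f
        have : g (1 ⊗ₜ cV f) = cV fL := by
          change Algebra.TensorProduct.lift _ _ _ _ = _
          rw [Algebra.TensorProduct.lift_tmul, map_one, one_mul, lift_V]
        rw [this]
        exact lift_V _ _ _ _
  exact ⟨(AlgEquiv.ofAlgHom g g' h1 h2).toRingEquiv⟩

theorem dom_tens {S : Type} [CommRing S] {f : S} (L : Type) [Field L] [CharZero L] [Algebra S L]
    (hf : algebraMap S L f ≠ 0) : IsDomain (L ⊗[S] XR f) := by
  obtain ⟨e⟩ := tens f L
  have := dom hf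
  exact e.toMulEquiv.isDomain _

theorem dom_base {S : Type} [CommRing S] [IsDomain S] [CharZero S] {f : S} (hf : f ≠ 0)
    (h2 : IsUnit (2 : S)) : IsDomain (XR f) ∧ Function.Injective (algebraMap S (XR f)) := by
  have : CharZero (FractionRing S) :=
    (algebraMap S (FractionRing S)).charZero_iff (IsFractionRing.injective S _) |>.1 inferInstance
  have := dom_tens (f := f) (FractionRing S) (by
    rw [Ne, FaithfulSMul.algebraMap_eq_zero_iff]; exact hf)
  have := smooth f h2
  have : Module.Flat S (XR f) := inferInstance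
  have hinj : Function.Injective (Algebra.TensorProduct.includeRight (R := S)
      (A := FractionRing S) (B := XR f)) :=
    Algebra.TensorProduct.includeRight_injective (IsFractionRing.injective S _)
  refine ⟨hinj.isDomain _, ?_⟩
  have h3 : Function.Injective
      ((Algebra.TensorProduct.includeRight : XR f →ₐ[S] FractionRing S ⊗[S] XR f) ∘
        (algebraMap S (XR f))) := by
    have h4 : (Algebra.TensorProduct.includeRight : XR f →ₐ[S] FractionRing S ⊗[S] XR f) ∘
        (algebraMap S (XR f)) =
      (algebraMap (FractionRing S) (FractionRing S ⊗[S] XR f)) ∘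
        (algebraMap S (FractionRing S)) := by
      funext s
      simp only [Function.comp_apply]
      rw [AlgHom.commutes]
      exact IsScalarTower.algebraMap_apply S (FractionRing S) (FractionRing S ⊗[S] XR f) s
    rw [h4]
    exact (algebraMap (FractionRing S) (FractionRing S ⊗[S] XR f)).injective.comp
      (IsFractionRing.injective S _)
  exact Function.Injective.of_comp h3

end Pool.Agent.W97.LF
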