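import Pool.Agent.W97.LF.Defs
import Pool.Agent.W97.LF.Dom
import Pool.Agent.W97.LF.Arith

set_option autoImplicit false

namespace Pool.Agent.W97.LF

open WeierstrassCurve.Affine

variable (W : WeierstrassCurve ℚ)

/-- coordinate functions -/
noncomputable def gx : W.toAffine.CoordinateRing :=
  CoordinateRing.mk W.toAffine (Polynomial.C Polynomial.X)
noncomputable def gy : W.toAffine.CoordinateRing := CoordinateRing.mk W.toAffine Polynomial.X

/-- rational number in the coordinate ring -/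
noncomputable def gq (q : ℚ) : W.toAffine.CoordinateRing := algebraMap ℚ _ q

/-- the function vanishing exactly at the given points -/
noncomputable def FF (T : Finset (ℚ × ℚ)) : W.toAffine.CoordinateRing :=
  ∏ s ∈ T, ((gx W - gq W s.1) ^ 2 + (gy W - gq W s.2) ^ 2)

/-- its value -/
def FQ (T : Finset (ℚ × ℚ)) (x y : ℚ) : ℚ := ∏ s ∈ T, ((x - s.1) ^ 2 + (y - s.2) ^ 2)

theorem FQ_eq_zero {T : Finset (ℚ × ℚ)} {x y : ℚ} : FQ T x y = 0 ↔ (x, y) ∈ T := by
  unfold FQ
  rw [Finset.prod_eq_zero_iff]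
  constructor
  · rintro ⟨s, hs, h⟩
    have h1 : (x - s.1) = 0 := by nlinarith [sq_nonneg (x - s.1), sq_nonneg (y - s.2)]
    have h2 : (y - s.2) = 0 := by nlinarith [sq_nonneg (x - s.1), sq_nonneg (y - s.2)]
    have : s = (x, y) := Prod.ext (sub_eq_zero.1 h1).symm (sub_eq_zero.1 h2).symm
    rwa [← this]
  · intro h
    exact ⟨_, h, by simp⟩

theorem map_FF {k : Type*} [Field k] [CharZero k] (ψ : W.toAffine.CoordinateRing →+* k) (T : Finset (ℚ × ℚ))
    {x y : ℚ} (hx : ψ (gx W) = (x : k)) (hy : ψ (gy W) = (y : k)) :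
    ψ (FF W T) = (FQ T x y : ℚ) := by
  unfold FF FQ
  rw [map_prod, Rat.cast_prod]
  apply Finset.prod_congr rfl
  intro s _
  have h1 : ∀ q : ℚ, ψ (gq W q) = (q : k) := by
    intro q
    change (ψ.comp (algebraMap ℚ W.toAffine.CoordinateRing)) q = _
    exact map_ratCast (ψ.comp (algebraMap ℚ W.toAffine.CoordinateRing)) q
  simp only [map_add, map_sub, map_pow, h1, hx, hy]
  push_cast
  ring

/-- evaluation at a rational point -/
theorem exists_eval {x y : ℚ} (h : W.toAffine.Equation x y) (k : Type) [Field k] [CharZero k] :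
    ∃ ψ : W.toAffine.CoordinateRing →+* k, ψ (gx W) = (x : k) ∧ ψ (gy W) = (y : k) := by
  have h0 : ∃ ψ : W.toAffine.CoordinateRing →+* ℚ, ψ (gx W) = x ∧ ψ (gy W) = y := by
    refine ⟨AdjoinRoot.lift (Polynomial.evalRingHom x) y ?_, ?_, ?_⟩
    · rw [Polynomial.eval₂_evalRingHom]
      exact h
    · change AdjoinRoot.lift _ _ _ (AdjoinRoot.of _ _) = _
      rw [AdjoinRoot.lift_of]
      simp
    · change AdjoinRoot.lift _ _ _ (AdjoinRoot.root _) = _
      rw [AdjoinRoot.lift_root]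
  obtain ⟨ψ, h1, h2⟩ := h0
  refine ⟨(algebraMap ℚ k).comp ψ, ?_, ?_⟩
  · rw [RingHom.comp_apply, h1]; rfl
  · rw [RingHom.comp_apply, h2]; rfl

/-- the function `c` -/
noncomputable def ff (T : Finset (ℚ × ℚ)) : W.toAffine.CoordinateRing := FF W T ^ 4 + 1

theorem charZero : CharZero W.toAffine.CoordinateRing := by
  have : Nontrivial W.toAffine.CoordinateRing := inferInstance
  exact algebraRat.charZero W.toAffine.CoordinateRing

theorem map_ff {k : Type*} [Field k] [CharZero k] (ψ : W.toAffine.CoordinateRing →+* k) (T : Finset (ℚ × ℚ))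
    {x y : ℚ} (hx : ψ (gx W) = (x : k)) (hy : ψ (gy W) = (y : k)) :
    ψ (ff W T) = ((FQ T x y) ^ 4 + 1 : ℚ) := by
  unfold ff
  rw [map_add, map_pow, map_one, map_FF W ψ T hx hy]
  push_cast
  ring

theorem ff_ne_zero {T : Finset (ℚ × ℚ)} (hT : ∀ s ∈ T, W.toAffine.Equation s.1 s.2) :
    ff W T ≠ 0 := by
  have := charZero W
  rcases T.eq_empty_or_nonempty with rfl | ⟨s, hs⟩
  · unfold ff FF
    simp only [Finset.prod_empty, one_pow]
    norm_num
  · intro h0
    obtain ⟨ψ, h1, h2⟩ := exists_eval W (hT s hs) ℚ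
    have h3 := map_ff W ψ T (x := s.1) (y := s.2) h1 h2
    have h4 : FQ T s.1 s.2 = 0 := FQ_eq_zero.2 hs
    rw [h0, h4, map_zero] at h3
    norm_num at h3

theorem unit2 : IsUnit (2 : W.toAffine.CoordinateRing) := by
  have h : (2 : W.toAffine.CoordinateRing) = algebraMap ℚ _ 2 := (map_ofNat _ 2).symm
  rw [h]
  exact (IsUnit.mk0 (2 : ℚ) two_ne_zero).map _

theorem isFibration {T : Finset (ℚ × ℚ)} (hT : ∀ s ∈ T, W.toAffine.Equation s.1 s.2) :
    IsFibration W (XR (ff W T)) := by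
  have := charZero W
  have h0 := ff_ne_zero W hT
  obtain ⟨h1, h2⟩ := dom_base h0 (unit2 W)
  refine ⟨h1, smooth _ (unit2 W), h2, ?_⟩
  intro L _ _ hL
  have : CharZero L := (algebraMap W.toAffine.CoordinateRing L).charZero_iff hL |>.1 inferInstance
  exact dom_tens L (by rw [Ne, map_eq_zero_iff _ hL]; exact h0)

/-- the fibre over a point of `T` has a rational point -/
theorem fibre_of_mem {T : Finset (ℚ × ℚ)} {x y : ℚ} (h : W.toAffine.Equation x y)
    (hxy : (x, y) ∈ T) (k : Type) [Field k] [CharZero k] : FibrePoint W (XR (ff W T)) x y k := by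
  obtain ⟨ψ, h1, h2⟩ := exists_eval W h k
  have h3 := map_ff W ψ T h1 h2
  rw [FQ_eq_zero.2 hxy] at h3
  letI : Algebra W.toAffine.CoordinateRing k := ψ.toAlgebra
  have h4 : algebraMap W.toAffine.CoordinateRing k (ff W T) = 1 := by
    change ψ _ = 1
    rw [h3]; norm_num
  let g : XR (ff W T) →ₐ[W.toAffine.CoordinateRing] k := lift (ff W T) (1 : k) 0 (by rw [h4]; norm_num)
  refine ⟨g.toRingHom, ?_, ?_⟩
  · change g (algebraMap _ _ _) = _
    rw [AlgHom.commutes]
    exact h1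
  · change g (algebraMap _ _ _) = _
    rw [AlgHom.commutes]
    exact h2

/-- if the fibre over `(x, y)` has points over all `ℚ_p`, then `(x, y) ∈ T` -/
theorem mem_of_fibre {T : Finset (ℚ × ℚ)} {x y : ℚ}
    (h : ∀ (p : ℕ) [Fact p.Prime], FibrePoint W (XR (ff W T)) x y ℚ_[p]) : (x, y) ∈ T := by
  rw [← FQ_eq_zero]
  apply local_global
  intro p _
  obtain ⟨ψ, h1, h2⟩ := h p
  refine ⟨ψ (cU (ff W T)), ψ (cV (ff W T)), ?_⟩
  have h3 := congrArg ψ (rel (ff W T))
  simp only [map_mul, map_add, map_pow, map_one] at h3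
  have h4 : ψ (algebraMap W.toAffine.CoordinateRing (XR (ff W T)) (ff W T)) =
      ((FQ T x y) ^ 4 + 1 : ℚ) := map_ff W (ψ.comp (algebraMap _ _)) T h1 h2
  rw [h4] at h3
  exact h3

theorem main (T : Set W.toAffine.Point) (hT : T.Finite) (h0 : 0 ∉ T) :
    ∃ (A : Type) (_ : CommRing A) (_ : Algebra W.toAffine.CoordinateRing A),
      IsFibration W A ∧ Z W A = T := by
  classical
  let T' : Set (ℚ × ℚ) := {s | ∃ h : W.toAffine.Nonsingular s.1 s.2, Point.some s.1 s.2 h ∈ T}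
  have hT' : T'.Finite := by
    let g : ℚ × ℚ → W.toAffine.Point := fun s =>
      if h : W.toAffine.Nonsingular s.1 s.2 then Point.some s.1 s.2 h else 0
    have hinj : Set.InjOn g T' := by
      rintro ⟨a, b⟩ ⟨h1, -⟩ ⟨c, d⟩ ⟨h2, -⟩ h3
      simp only [g] at h3
      rw [dif_pos h1, dif_pos h2] at h3
      rw [Point.some.injEq] at h3
      exact Prod.ext h3.1 h3.2
    apply Set.Finite.of_finite_image _ hinj
    apply hT.subset
    rintro _ ⟨s, ⟨h1, h2⟩, rfl⟩
    simp only [g]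
    rw [dif_pos h1]
    exact h2
  have hmem : ∀ s, s ∈ hT'.toFinset ↔ ∃ h : W.toAffine.Nonsingular s.1 s.2,
      Point.some s.1 s.2 h ∈ T := fun s => by rw [Set.Finite.mem_toFinset]; rfl
  have heq : ∀ s ∈ hT'.toFinset, W.toAffine.Equation s.1 s.2 := by
    intro s hs
    obtain ⟨h, -⟩ := (hmem s).1 hs
    exact h.1
  refine ⟨XR (ff W hT'.toFinset), inferInstance, inferInstance, isFibration W heq, ?_⟩
  ext P
  constructor
  · rintro ⟨x, y, h, rfl, -, h2⟩
    obtain ⟨h3, h4⟩ := (hmem (x, y)).1 (mem_of_fibre W h2)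
    exact h4
  · intro hP
    rcases P with _ | ⟨x, y, h⟩
    · exact absurd hP h0
    · have h1 : (x, y) ∈ hT'.toFinset := (hmem (x, y)).2 ⟨h, hP⟩
      refine ⟨x, y, h, rfl, fibre_of_mem W h.1 h1 ℝ, ?_⟩
      intro p _
      exact fibre_of_mem W h.1 h1 ℚ_[p]

end Pool.Agent.W97.LF
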