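import Mathlib

/-!
The ring `S[U, V] / (f U² - f² V⁴ - 1)`.
-/

set_option autoImplicit false

open MvPolynomial TensorProduct

namespace Pool.Agent.W97.LF

section
variable {S : Type} [CommRing S]

/-- `f U² - f² V⁴ - 1` -/
noncomputable def eqn (f : S) : MvPolynomial (Fin 2) S :=
  C f * X 0 ^ 2 - C (f ^ 2) * X 1 ^ 4 - 1

/-- `S[U, V] / (f U² - f² V⁴ - 1)` -/
def XR (f : S) : Type := MvPolynomial (Fin 2) S ⧸ Ideal.span {eqn f}

noncomputable instance instCommRingXR (f : S) : CommRing (XR f) := Ideal.Quotient.commRing _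
noncomputable instance instAlgebraXR (f : S) : Algebra S (XR f) := Ideal.Quotient.algebra S

noncomputable def cU (f : S) : XR f := Ideal.Quotient.mk (Ideal.span {eqn f}) (X 0)
noncomputable def cV (f : S) : XR f := Ideal.Quotient.mk (Ideal.span {eqn f}) (X 1)

theorem rel (f : S) : algebraMap S (XR f) f * cU f ^ 2 =
    algebraMap S (XR f) f ^ 2 * cV f ^ 4 + 1 := by
  have h : Ideal.Quotient.mk (Ideal.span {eqn f}) (eqn f) = 0 :=
    Ideal.Quotient.eq_zero_iff_mem.2 (Ideal.subset_span rfl)
  have h2 : algebraMap S (XR f) f = Ideal.Quotient.mk (Ideal.span {eqn f}) (C f) := rfl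
  have h3 : ∀ I : Ideal (MvPolynomial (Fin 2) S), Ideal.Quotient.mk I (eqn f) =
      Ideal.Quotient.mk I (C f) * Ideal.Quotient.mk I (X 0) ^ 2
      - Ideal.Quotient.mk I (C f) ^ 2 * Ideal.Quotient.mk I (X 1) ^ 4 - 1 := by
    intro I
    unfold eqn
    simp only [map_sub, map_mul, map_pow, map_one]
  rw [h3] at h
  rw [h2, ← sub_eq_zero]
  have h4 : ∀ (c u v : MvPolynomial (Fin 2) S ⧸ Ideal.span {eqn f}),
      c * u ^ 2 - c ^ 2 * v ^ 4 - 1 = 0 → c * u ^ 2 - (c ^ 2 * v ^ 4 + 1) = 0 := by
    intro c u v h; linear_combination h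
  exact h4 _ _ _ h

section
variable {B : Type*} [CommRing B] [Algebra S B]

/-- the homomorphism to `B` given by a solution in `B` -/
noncomputable def lift (f : S) (u v : B)
    (h : algebraMap S B f * u ^ 2 = algebraMap S B f ^ 2 * v ^ 4 + 1) : XR f →ₐ[S] B :=
  Ideal.Quotient.liftₐ (Ideal.span {eqn f}) (aeval ![u, v]) (by
    intro a ha
    have h1 : Ideal.span {eqn f} ≤ RingHom.ker (aeval (R := S) ![u, v]).toRingHom := by
      rw [Ideal.span_le]
      rintro x hx
      rw [Set.mem_singleton_iff] at hx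
      subst hx
      change aeval ![u, v] (eqn f) = 0
      unfold eqn
      simp only [map_sub, map_mul, map_pow, map_one, aeval_C, aeval_X]
      simp only [Matrix.cons_val_zero, Matrix.cons_val_one]
      rw [h]
      ring
    exact h1 ha)

theorem lift_U (f : S) (u v : B)
    (h : algebraMap S B f * u ^ 2 = algebraMap S B f ^ 2 * v ^ 4 + 1) : lift f u v h (cU f) = u := by
  change aeval ![u, v] (X 0 : MvPolynomial (Fin 2) S) = u
  rw [aeval_X]; rfl

theorem lift_V (f : S) (u v : B)
    (h : algebraMap S B f * u ^ 2 = algebraMap S B f ^ 2 * v ^ 4 + 1) : lift f u v h (cV f) = v := by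
  change aeval ![u, v] (X 1 : MvPolynomial (Fin 2) S) = v
  rw [aeval_X]; rfl

theorem ext (f : S) {g g' : XR f →ₐ[S] B} (hU : g (cU f) = g' (cU f)) (hV : g (cV f) = g' (cV f)) :
    g = g' := by
  let π : MvPolynomial (Fin 2) S →ₐ[S] XR f := Ideal.Quotient.mkₐ S (Ideal.span {eqn f})
  have h1 : g.comp π = g'.comp π := by
    apply MvPolynomial.algHom_ext
    intro i
    fin_cases i
    · exact hU
    · exact hV
  apply AlgHom.ext
  intro x
  obtain ⟨y, rfl⟩ : ∃ y, π y = x := Ideal.Quotient.mk_surjective x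
  exact DFunLike.congr_fun h1 y

end

/-- `X → Spec S` is smooth if `2` is invertible -/
theorem smooth (f : S) (h2 : IsUnit (2 : S)) : Algebra.Smooth S (XR f) where
  formallySmooth := by
    apply Algebra.FormallySmooth.of_comp_surjective
    intro B _ _ I hI g
    obtain ⟨u, hu⟩ := Ideal.Quotient.mk_surjective (g (cU f))
    obtain ⟨v, hv⟩ := Ideal.Quotient.mk_surjective (g (cV f))
    obtain ⟨t, ht⟩ : ∃ t : B, 2 * t = 1 := by
      obtain ⟨w, hw⟩ := h2
      refine ⟨algebraMap S B (w⁻¹ : Sˣ), ?_⟩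
      have h3 : algebraMap S B 2 * algebraMap S B (w⁻¹ : Sˣ) = 1 := by
        rw [← map_mul, ← hw, Units.mul_inv, map_one]
      have h4 : algebraMap S B 2 = 2 := map_ofNat _ 2
      rw [h4] at h3
      exact h3
    set c := algebraMap S B f with hc
    have hj : c * u ^ 2 - c ^ 2 * v ^ 4 - 1 ∈ I := by
      rw [← Ideal.Quotient.eq_zero_iff_mem]
      have h3 := congrArg g (rel f)
      simp only [map_mul, map_add, map_pow, map_one, AlgHom.commutes] at h3
      rw [← hu, ← hv] at h3
      have h4 : algebraMap S (B ⧸ I) f = Ideal.Quotient.mk I c := rfl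
      rw [h4] at h3
      simp only [map_sub, map_mul, map_pow, map_one]
      rw [h3]
      ring
    set j := c * u ^ 2 - c ^ 2 * v ^ 4 - 1 with hjd
    have hj2 : j * j = 0 := by
      have h3 : j * j ∈ I ^ 2 := by
        rw [pow_two]
        exact Ideal.mul_mem_mul hj hj
      rw [hI] at h3
      exact h3
    have hsol : c * (u * (1 - j * t)) ^ 2 = c ^ 2 * (v * (1 - j * (t * t))) ^ 4 + 1 := by
      have e1 : (1 - j * t) ^ 2 = 1 - j := by
        have : (1 - j * t) ^ 2 = 1 - j * (2 * t) + (j * j) * t ^ 2 := by ring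
        rw [this, ht, hj2]; ring
      have e2 : (1 - j * (t * t)) ^ 4 = 1 - j := by
        have : (1 - j * (t * t)) ^ 4 = 1 - j * ((2 * t) * (2 * t)) +
          (j * j) * (6 * t ^ 4 - 4 * j * t ^ 6 + (j * j) * t ^ 8) := by ring
        rw [this, ht, hj2]; ring
      have e3 : c * (u * (1 - j * t)) ^ 2 = c * u ^ 2 * (1 - j) := by
        rw [mul_pow, e1]; ring
      have e4 : c ^ 2 * (v * (1 - j * (t * t))) ^ 4 = c ^ 2 * v ^ 4 * (1 - j) := by
        rw [mul_pow, e2]; ring
      rw [e3, e4]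
      have e5 : c * u ^ 2 = j + c ^ 2 * v ^ 4 + 1 := by rw [hjd]; ring
      rw [e5]
      linear_combination (-1 : B) * hj2
    refine ⟨lift f _ _ hsol, ?_⟩
    apply ext
    · rw [AlgHom.comp_apply, lift_U, ← hu]
      change Ideal.Quotient.mk I _ = _
      rw [Ideal.Quotient.mk_eq_mk_iff_sub_mem]
      have : u * (1 - j * t) - u = j * (-(u * t)) := by ring
      rw [this]
      exact I.mul_mem_right _ hj
    · rw [AlgHom.comp_apply, lift_V, ← hv]
      change Ideal.Quotient.mk I _ = _
      rw [Ideal.Quotient.mk_eq_mk_iff_sub_mem]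
      have : v * (1 - j * (t * t)) - v = j * (-(v * (t * t))) := by ring
      rw [this]
      exact I.mul_mem_right _ hj
  finitePresentation := by
    exact Algebra.FinitePresentation.quotient (I := Ideal.span {eqn f}) ⟨{eqn f}, by simp⟩

end

end Pool.Agent.W97.LF
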